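import Pool.Agent.H7.DV.T5

/-! Passing to the quotient by the span of a set of elements. -/

set_option linter.unusedSectionVars false

open Module Submodule H15

namespace H30.FO

private theorem fr_map {E E' : Type*} [AddCommGroup E] [Module ℝ E]
    [FiniteDimensional ℝ E] [AddCommGroup E'] [Module ℝ E'] (f : E →ₗ[ℝ] E')
    (C : Submodule ℝ E) (h : LinearMap.ker f ≤ C) :
    finrank ℝ (C.map f) + finrank ℝ (LinearMap.ker f) = finrank ℝ C := by
  have h1 := LinearMap.finrank_range_add_finrank_ker (f.domRestrict C)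
  have h2 : LinearMap.range (f.domRestrict C) = C.map f := LinearMap.range_domRestrict _ _
  have h3 : finrank ℝ (LinearMap.ker (f.domRestrict C)) = finrank ℝ (LinearMap.ker f) := by
    have h4 : LinearMap.ker (f.domRestrict C) = (LinearMap.ker f).comap C.subtype := by
      ext x
      rw [LinearMap.mem_ker, LinearMap.domRestrict_apply, ← LinearMap.mem_ker]
      rfl
    rw [h4]
    exact (Submodule.comapSubtypeEquivOfLe h).finrank_eq
  rw [h2, h3] at h1
  exact h1

private theorem sp_comp {ι : Type*} {E E' : Type*} [AddCommGroup E] [Module ℝ E]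
    [AddCommGroup E'] [Module ℝ E'] (v : ι → E) (f : E →ₗ[ℝ] E') (X : Set ι) :
    sp (f ∘ v) X = (sp v X).map f := by
  unfold sp
  rw [Submodule.map_span, ← Set.image_comp]

private theorem fr_LL {ι : Type*} {E E' : Type*} [AddCommGroup E] [Module ℝ E]
    [FiniteDimensional ℝ E] [AddCommGroup E'] [Module ℝ E'] (v : ι → E) (f : E →ₗ[ℝ] E')
    (X Y : Set ι) :
    finrank ℝ (LL (f ∘ v) X Y) + finrank ℝ (LinearMap.ker f) =
      finrank ℝ ((sp v X ⊔ LinearMap.ker f) ⊓ (sp v Y ⊔ LinearMap.ker f) : Submodule ℝ E) := by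
  have h1 : (sp v X ⊔ LinearMap.ker f) ⊓ (sp v Y ⊔ LinearMap.ker f) =
      (LL (f ∘ v) X Y).comap f := by
    unfold LL
    rw [sp_comp, sp_comp, Submodule.comap_inf, Submodule.comap_map_eq, Submodule.comap_map_eq]
  have h2 : (((sp v X ⊔ LinearMap.ker f) ⊓ (sp v Y ⊔ LinearMap.ker f) : Submodule ℝ E)).map f =
      LL (f ∘ v) X Y := by
    rw [h1, Submodule.map_comap_eq]
    apply inf_eq_right.2
    refine le_trans inf_le_left ?_
    rw [sp_comp]
    exact LinearMap.map_le_range
  rw [← fr_map f _ (le_inf le_sup_right le_sup_right), h2]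

/-- only the kernel matters. -/
theorem bdd_of_ker {ι : Type*} [Fintype ι] {E E' E'' : Type*} [AddCommGroup E] [Module ℝ E]
    [FiniteDimensional ℝ E] [AddCommGroup E'] [Module ℝ E'] [AddCommGroup E''] [Module ℝ E'']
    {v : ι → E} {m : ℕ} (f : E →ₗ[ℝ] E') (g : E →ₗ[ℝ] E'') (h : LinearMap.ker f = LinearMap.ker g)
    (hb : Bdd (f ∘ v) m) : Bdd (g ∘ v) m := by
  rintro X Y ⟨c, hc0, hc1, hc2⟩
  have hc : ∑ i, c i • (f ∘ v) i = 0 := by
    have h1 : ∑ i, c i • v i ∈ LinearMap.ker g := by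
      rw [LinearMap.mem_ker, map_sum, ← hc0]
      exact Finset.sum_congr rfl fun i _ => by rw [map_smul]; rfl
    rw [← h, LinearMap.mem_ker, map_sum] at h1
    rw [← h1]
    exact Finset.sum_congr rfl fun i _ => by rw [map_smul]; rfl
  have h2 := hb X Y ⟨c, hc, hc1, hc2⟩
  have h3 := fr_LL v f X Y
  have h4 := fr_LL v g X Y
  rw [h] at h3
  omega

private theorem bdd_of_sub {ι : Type*} [Fintype ι] [DecidableEq ι] {E : Type*} [AddCommGroup E]
    [Module ℝ E] {u : ι → E} {m : ℕ} (p : ι) (hz : u p = 0)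
    (hb : Bdd (fun i : {i : ι // i ≠ p} => u i) m) : Bdd u m := by
  rintro X Y ⟨c, hc0, hc1, hc2⟩
  have hsp : ∀ Z : Set ι, sp u Z = sp (fun i : {i : ι // i ≠ p} => u i) (Subtype.val ⁻¹' Z) := by
    intro Z
    apply le_antisymm
    · rw [sp_le]
      intro i hi
      by_cases h : i = p
      · subst h
        rw [hz]
        exact zero_mem _
      · exact mem_sp (v := fun i : {i : ι // i ≠ p} => u i) (i := ⟨i, h⟩) hi
    · rw [sp_le]
      intro i hi
      exact mem_sp hi
  have h1 : LL u X Y = LL (fun i : {i : ι // i ≠ p} => u i) (Subtype.val ⁻¹' X)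
      (Subtype.val ⁻¹' Y) := by
    unfold LL
    rw [hsp X, hsp Y]
  rw [h1]
  apply hb
  refine ⟨fun i => c i, ?_, fun i => hc1 i, fun i => hc2 i⟩
  rw [← hc0, ← Finset.sum_erase_add _ _ (Finset.mem_univ p), hz, smul_zero, add_zero]
  rw [Finset.sum_subtype (Finset.univ.erase p) (p := fun i => i ≠ p) (by simp)]

private theorem bdd_one {ι : Type*} [Fintype ι] {E : Type*} [AddCommGroup E] [Module ℝ E]
    [FiniteDimensional ℝ E] {v : ι → E} {m : ℕ} (hb : Bdd v m) (p : ι) :
    Bdd ((span ℝ {v p}).mkQ ∘ v) m := by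
  classical
  by_cases hp : v p = 0
  · have h := bdd_of_ker (v := v) (m := m) (LinearMap.id : E →ₗ[ℝ] E) (span ℝ {v p}).mkQ
      (by rw [Submodule.ker_mkQ, hp, Submodule.span_zero_singleton, LinearMap.ker_id]) hb
    exact h
  · refine bdd_of_sub p ?_ (Pool.Agent.H7.DV.bdd_contract hb hp)
    show (span ℝ {v p}).mkQ (v p) = 0
    rw [← LinearMap.mem_ker, Submodule.ker_mkQ]
    exact mem_span_singleton_self _

/-- the maximal rank does not increase when the span of some elements is divided out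
(induction on `J`, `Pool.Agent.H7.DV.bdd_contract`). -/
theorem bdd_span {ι : Type*} [Fintype ι] {E : Type*} [AddCommGroup E] [Module ℝ E]
    [FiniteDimensional ℝ E] {v : ι → E} {m : ℕ} (hb : Bdd v m) (J : Set ι) :
    Bdd ((sp v J).mkQ ∘ v) m := by
  induction J, (Set.toFinite J) using Set.Finite.induction_on with
  | empty =>
    have h := bdd_of_ker (v := v) (m := m) (LinearMap.id : E →ₗ[ℝ] E) (sp v ∅).mkQ
      (by unfold sp; rw [Submodule.ker_mkQ, Set.image_empty, Submodule.span_empty,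
        LinearMap.ker_id]) hb
    exact h
  | @insert p S hpS _ ih =>
    have h1 := bdd_one ih p
    have h2 : ((span ℝ {((sp v S).mkQ ∘ v) p}).mkQ ∘ ((sp v S).mkQ ∘ v)) =
        (((span ℝ {((sp v S).mkQ ∘ v) p}).mkQ ∘ₗ (sp v S).mkQ) ∘ v) := rfl
    rw [h2] at h1
    refine bdd_of_ker _ _ ?_ h1
    rw [LinearMap.ker_comp, Submodule.ker_mkQ, Submodule.ker_mkQ, sp_insert]
    ext x
    rw [Submodule.mem_comap, Submodule.mem_span_singleton, Submodule.mem_sup]
    constructor
    · rintro ⟨a, ha⟩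
      refine ⟨a • v p, Submodule.smul_mem _ _ (mem_span_singleton_self _), x - a • v p, ?_, by abel⟩
      rw [← Submodule.ker_mkQ (sp v S), LinearMap.mem_ker, map_sub, map_smul, sub_eq_zero]
      exact ha.symm
    · rintro ⟨y, hy, z, hz, rfl⟩
      obtain ⟨a, rfl⟩ := Submodule.mem_span_singleton.1 hy
      refine ⟨a, ?_⟩
      rw [← Submodule.ker_mkQ (sp v S), LinearMap.mem_ker] at hz
      rw [map_add, map_smul, hz, add_zero]
      rfl

end H30.FO
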