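import Pool.Agent.H15.FamMain
import Pool.Agent.H15.FO.Eight

/-! Eight elements in a subspace of dimension four. -/

set_option linter.unusedSectionVars false

open Module Submodule H15

namespace H30.FO

variable {ι : Type*} [Fintype ι] {E : Type*} [AddCommGroup E] [Module ℝ E]
  [FiniteDimensional ℝ E] {v : ι → E}

/-- eight points in rank 4 with lines of at most three and planes of at most five points: cosimple, and
the maximal frame has rank at least 3 (else two zero elements in dimension at most 2: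
`two_exits`, `one_exit`). -/
theorem eight_rank (hv : Pts v) (hE : finrank ℝ E = 4) (hcard : 8 ≤ Fintype.card ι)
    (hn2 : ∀ G : Submodule ℝ E, finrank ℝ G ≤ 2 → {i | v i ∈ G}.ncard ≤ 3)
    {m : ℕ} {A B : Set ι} (hF : MaxFrame v m A B) : 3 ≤ m :=
  H15.FO.eight_rank hv hE hcard hn2 hF

/-- a subspace `L` of dimension 4 with at least eight elements: the quotient has rank at most one. -/
theorem bdd_quot_of_eight (hpos : ∃ h : E →ₗ[ℝ] ℝ, ∀ i, 0 < h (v i)) (hb : Bdd v 4)
    (hnp : ∀ G : Submodule ℝ E, finrank ℝ G ≤ 1 → {i | v i ∈ G}.ncard ≤ 1)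
    (hn2 : ∀ G : Submodule ℝ E, finrank ℝ G ≤ 2 → {i | v i ∈ G}.ncard ≤ 3)
    (hn3 : ∀ G : Submodule ℝ E, finrank ℝ G ≤ 3 → {i | v i ∈ G}.ncard ≤ 5)
    {L : Submodule ℝ E} (hL : finrank ℝ L = 4) (h8 : 8 ≤ {i | v i ∈ L}.ncard) :
    Bdd (L.mkQ ∘ v) 1 :=
  H15.FO.bdd_quot_of_eight hpos hb hnp hn2 hn3 hL h8

end H30.FO
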