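import Pool.Agent.H15.FamMain

/-! Signed vectors with full support; the elements of a subspace `L`. -/

set_option linter.unusedSectionVars false

open Module Submodule H15

namespace H30.FO

variable {ι : Type*} [Fintype ι] {E : Type*} [AddCommGroup E] [Module ℝ E]
  [FiniteDimensional ℝ E] {v : ι → E} {m : ℕ}

/-- the dependencies supported on `J`. -/
private def depOn (v : ι → E) (J : Set ι) : Submodule ℝ (ι → ℝ) where
  carrier := {c | ∑ i, c i • v i = 0 ∧ ∀ i, i ∉ J → c i = 0}
  zero_mem' := by simp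
  add_mem' := by
    rintro a b ⟨ha, ha'⟩ ⟨hb, hb'⟩
    refine ⟨?_, fun i hi => ?_⟩
    · simp only [Pi.add_apply, add_smul, Finset.sum_add_distrib, ha, hb, add_zero]
    · rw [Pi.add_apply, ha' i hi, hb' i hi, add_zero]
  smul_mem' := by
    rintro t a ⟨ha, ha'⟩
    refine ⟨?_, fun i hi => ?_⟩
    · simp only [Pi.smul_apply, smul_eq_mul, mul_smul, ← Finset.smul_sum, ha, smul_zero]
    · rw [Pi.smul_apply, ha' i hi, smul_zero]

/-- if no element of `J` is a coloop of `J`, there is a signed vector with support `J`. -/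
theorem exists_svec_supp {J : Set ι} (hJ : ∀ i ∈ J, v i ∈ sp v (J \ {i})) :
    ∃ X Y, SVec v X Y ∧ X ∪ Y = J := by
  classical
  obtain ⟨c, hc⟩ := exists_generic (V := depOn v J) (κ := J)
    (fun i => (LinearMap.ker (LinearMap.proj (R := ℝ) (φ := fun _ : ι => ℝ) (i : ι))).comap
      (depOn v J).subtype) (by
    intro i htop
    obtain ⟨a, ha, hs⟩ := mem_sp_iff.1 (hJ i i.2)
    have hai : a i = 0 := ha i (fun h => h.2 rfl)
    have hmem : a - Pi.single (i : ι) 1 ∈ depOn v J := by
      refine ⟨?_, ?_⟩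
      · simp only [Pi.sub_apply, sub_smul, Finset.sum_sub_distrib, hs]
        rw [Finset.sum_eq_single (i : ι)]
        · simp
        · intro l _ hl
          rw [Pi.single_eq_of_ne hl, zero_smul]
        · intro h
          exact absurd (Finset.mem_univ _) h
      · intro l hl
        have hli : l ≠ i := fun h => hl (h ▸ i.2)
        rw [Pi.sub_apply, ha l (fun h => hl h.1), Pi.single_eq_of_ne hli, sub_zero]
    have h1 : (⟨a - Pi.single (i : ι) 1, hmem⟩ : depOn v J) ∈
        (LinearMap.ker (LinearMap.proj (R := ℝ) (φ := fun _ : ι => ℝ) (i : ι))).comap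
          (depOn v J).subtype := by rw [htop]; trivial
    have h2 : (a - Pi.single (i : ι) (1 : ℝ) : ι → ℝ) (i : ι) = 0 := h1
    rw [Pi.sub_apply, hai, Pi.single_eq_same] at h2
    norm_num at h2)
  have hne : ∀ i ∈ J, (c : ι → ℝ) i ≠ 0 := fun i hi h0 => hc ⟨i, hi⟩ h0
  refine ⟨{i | 0 < (c : ι → ℝ) i}, {i | (c : ι → ℝ) i < 0},
    ⟨c, c.2.1, fun i => Iff.rfl, fun i => Iff.rfl⟩, ?_⟩
  ext i
  constructor
  · rintro (h | h)
    · by_contra hi
      have h0 := c.2.2 i hi
      have h1 : 0 < (c : ι → ℝ) i := h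
      rw [h0] at h1
      exact lt_irrefl _ h1
    · by_contra hi
      have h0 := c.2.2 i hi
      have h1 : (c : ι → ℝ) i < 0 := h
      rw [h0] at h1
      exact lt_irrefl _ h1
  · intro hi
    rcases lt_or_gt_of_ne (hne i hi) with h | h
    · exact Or.inr h
    · exact Or.inl h

/-- no coloops: a signed vector with full support (maximal support, `SVec.comp`). -/
theorem exists_full_svec (hc : ∀ i, sp v ({i}ᶜ) = ⊤) : ∃ X Y, SVec v X Y ∧ X ∪ Y = Set.univ := by
  refine exists_svec_supp (J := Set.univ) fun i _ => ?_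
  have h1 : Set.univ \ {i} = ({i}ᶜ : Set ι) := by
    ext l; simp
  rw [h1, hc i]
  trivial

/-- if the elements in `L` span `L` without coloops, then the quotient by `L` has smaller rank
(positivity: the full signed vector in `L` has rank at least one). -/
theorem bdd_quot_of_full (h : E →ₗ[ℝ] ℝ) (hpos : ∀ i, 0 < h (v i)) (hb : Bdd v (m + 1))
    {L : Submodule ℝ E} (hne : ∃ i, v i ∈ L)
    (hL : ∀ i, v i ∈ L → sp v {l | v l ∈ L ∧ l ≠ i} = L) : Bdd (L.mkQ ∘ v) m := by
  classical
  obtain ⟨X, Y, hXY, hU⟩ := exists_svec_supp (v := v) (J := {i | v i ∈ L}) (by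
    intro i hi
    have h1 : {l | v l ∈ L} \ {i} = {l | v l ∈ L ∧ l ≠ i} := by
      ext l; simp
    rw [h1, hL i hi]
    exact hi)
  have hsp : sp v (X ∪ Y) = L := by
    rw [hU]
    refine le_antisymm (sp_le.2 fun i hi => hi) ?_
    obtain ⟨i, hi⟩ := hne
    calc L = sp v {l | v l ∈ L ∧ l ≠ i} := (hL i hi).symm
      _ ≤ sp v {i | v i ∈ L} := sp_mono fun l hl => hl.1
  -- the rank of the full signed vector is positive
  have hrank : 1 ≤ finrank ℝ (LL v X Y) := by
    obtain ⟨c, hc0, hcX, hcY⟩ := hXY
    obtain ⟨i, hi⟩ := hne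
    have hsum : ∑ l, c l * h (v l) = 0 := by
      have := congrArg h hc0
      rw [map_sum, map_zero] at this
      rw [← this]
      exact Finset.sum_congr rfl fun l _ => by rw [map_smul, smul_eq_mul]
    have hXne : X.Nonempty := by
      by_contra hX
      rw [Set.not_nonempty_iff_eq_empty] at hX
      have hle : ∀ l, c l ≤ 0 := fun l => by
        by_contra hl
        have := (hcX l).1 (not_le.1 hl)
        rw [hX] at this
        exact this
      have hiY : i ∈ Y := by
        have : i ∈ X ∪ Y := by rw [hU]; exact hi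
        rcases this with h1 | h1
        · rw [hX] at h1; exact absurd h1 (Set.notMem_empty _)
        · exact h1
      have hneg : ∑ l, c l * h (v l) < 0 := by
        refine Finset.sum_neg' (fun l _ => mul_nonpos_of_nonpos_of_nonneg (hle l) (hpos l).le)
          ⟨i, Finset.mem_univ _, mul_neg_of_neg_of_pos ((hcY i).2 hiY) (hpos i)⟩
      exact absurd hsum hneg.ne
    obtain ⟨j, hj⟩ := hXne
    set z : E := ∑ l, (if 0 < c l then c l else 0) • v l with hz
    have hz' : z = ∑ l, (if c l < 0 then - c l else 0) • v l := by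
      rw [hz, ← sub_eq_zero, ← Finset.sum_sub_distrib, ← hc0]
      refine Finset.sum_congr rfl fun l _ => ?_
      rw [← sub_smul]
      congr 1
      rcases lt_trichotomy (c l) 0 with h1 | h1 | h1
      · rw [if_neg (not_lt.2 h1.le), if_pos h1]; ring
      · rw [h1]; simp
      · rw [if_pos h1, if_neg (not_lt.2 h1.le)]; ring
    have hzL : z ∈ LL v X Y := by
      refine ⟨?_, ?_⟩
      · refine Submodule.sum_mem _ fun l _ => ?_
        split_ifs with h1
        · exact Submodule.smul_mem _ _ (mem_sp ((hcX l).1 h1))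
        · rw [zero_smul]; exact Submodule.zero_mem _
      · rw [hz']
        refine Submodule.sum_mem _ fun l _ => ?_
        split_ifs with h1
        · exact Submodule.smul_mem _ _ (mem_sp ((hcY l).1 h1))
        · rw [zero_smul]; exact Submodule.zero_mem _
    have hhz : 0 < h z := by
      rw [hz, map_sum]
      refine Finset.sum_pos' (fun l _ => ?_) ⟨j, Finset.mem_univ _, ?_⟩
      · rw [map_smul, smul_eq_mul]
        split_ifs with h1
        · exact mul_nonneg h1.le (hpos l).le
        · rw [zero_mul]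
      · rw [map_smul, smul_eq_mul, if_pos ((hcX j).2 hj)]
        exact mul_pos ((hcX j).2 hj) (hpos j)
    have hne' : LL v X Y ≠ ⊥ := by
      intro hbot
      rw [hbot, Submodule.mem_bot] at hzL
      rw [hzL, map_zero] at hhz
      exact lt_irrefl _ hhz
    rw [Nat.one_le_iff_ne_zero]
    intro h0
    exact hne' (Submodule.finrank_eq_zero.1 h0)
  suffices H : ∀ L' : Submodule ℝ E, L' = sp v (X ∪ Y) → Bdd (L'.mkQ ∘ v) m from H L hsp.symm
  rintro _ rfl X' Y' hXY'
  have := hb.quot hXY hXY'
  omega

end H30.FO
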