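import Pool.Agent.H15.FamMain
import Pool.Agent.H42.FO.QAdd
import Pool.Agent.H9.FO.Quot

/-! The quotient by `L = LL v A B` is a direct sum. -/

set_option linter.unusedSectionVars false

open Module Submodule H15

namespace H30.FO

variable {ι : Type*} [Fintype ι] {E : Type*} [AddCommGroup E] [Module ℝ E]
  [FiniteDimensional ℝ E] {v : ι → E} {A B : Set ι} {m : ℕ}

/-- modulo `L` the ranks of the quotients by `sp v B` (elements of `A`) and by `sp v A` (elements of `B`)
add up. -/
theorem quot_add (hd : Disjoint A B) (hW : ∀ i, i ∉ A → i ∉ B → v i ∈ LL v A B) {a b : ℕ}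
    (h1 : ¬ Bdd ((sp v B).mkQ ∘ v) a) (h2 : ¬ Bdd ((sp v A).mkQ ∘ v) b) :
    ¬ Bdd ((LL v A B).mkQ ∘ v) (a + b + 1) := by
  exact H42.FO.quot_add hd hW h1 h2

/-- a frame with `finrank E = m + 4` and both sides larger than `m`. -/
theorem quot_three [Nonempty ι] (hF : MaxFrame v m A B) (hE : finrank ℝ E = m + 4)
    (hA : m < A.ncard) (hB : m < B.ncard) : ¬ Bdd ((LL v A B).mkQ ∘ v) 2 := by
  have hc := hF.card
  have hd := hF.svec.disjoint
  have hW : ∀ i, i ∉ A → i ∉ B → v i ∈ LL v A B := fun i h1 h2 => hF.zero h1 h2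
  by_cases h : m + 1 < A.ncard
  · have h1 := H9.FO.not_bdd_one hF h
    have h2 := H9.FO.not_bdd_zero hF.symm hB
    exact quot_add hd hW h1 h2
  · have h1 := H9.FO.not_bdd_zero hF hA
    have h2 := H9.FO.not_bdd_one hF.symm (by omega)
    exact quot_add hd hW h1 h2

/-- a frame with `finrank E = m + 4` and both sides of size `m + 2`. -/
theorem quot_four [Nonempty ι] (hF : MaxFrame v m A B)
    (hA : A.ncard = m + 2) (hB : B.ncard = m + 2) : ¬ Bdd ((LL v A B).mkQ ∘ v) 3 :=
  quot_add hF.svec.disjoint (fun i h1 h2 => hF.zero h1 h2)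
    (H9.FO.not_bdd_one hF (by omega)) (H9.FO.not_bdd_one hF.symm (by omega))

end H30.FO
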