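import Pool.Agent.H30.FO.Contract
import Pool.Agent.H30.FO.QuotAdd
import Pool.Agent.H30.FO.Full
import Pool.Agent.H30.FO.Eight

/-! `k = 4`: no cosimple configuration of rank `r ≥ 8` with `2 r` elements and all ranks at most 4. -/

set_option linter.unusedSectionVars false

open Module Submodule H15

namespace H30.FO

variable {ι : Type*} [Fintype ι] {E : Type*} [AddCommGroup E] [Module ℝ E]
  [FiniteDimensional ℝ E] {v : ι → E}

theorem finrank_comap_mkQ {F : Submodule ℝ E} (G : Submodule ℝ (E ⧸ F)) :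
    finrank ℝ (G.comap F.mkQ) = finrank ℝ G + finrank ℝ F := by
  have h1 := LinearMap.finrank_range_add_finrank_ker (F.mkQ.domRestrict (G.comap F.mkQ))
  have h2 : LinearMap.range (F.mkQ.domRestrict (G.comap F.mkQ)) = G := by
    rw [LinearMap.range_domRestrict, Submodule.map_comap_eq_of_surjective (Submodule.mkQ_surjective F)]
  have hle : F ≤ G.comap F.mkQ := by
    intro x hx
    rw [Submodule.mem_comap]
    have : F.mkQ x = 0 := by
      rw [← LinearMap.mem_ker, Submodule.ker_mkQ]
      exact hx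
    rw [this]
    exact zero_mem _
  have h3 : finrank ℝ (LinearMap.ker (F.mkQ.domRestrict (G.comap F.mkQ))) = finrank ℝ F := by
    have h4 : LinearMap.ker (F.mkQ.domRestrict (G.comap F.mkQ)) = F.comap (G.comap F.mkQ).subtype := by
      ext x
      rw [LinearMap.mem_ker, LinearMap.domRestrict_apply, ← LinearMap.mem_ker, Submodule.ker_mkQ]
      rfl
    rw [h4]
    exact (Submodule.comapSubtypeEquivOfLe hle).finrank_eq
  rw [h2, h3] at h1
  exact h1.symm

/-- lines contain at most three elements. -/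
theorem no_line [Nonempty ι] (hv : Pts v)
    (hfc : ∀ G : Submodule ℝ E, finrank ℝ G ≤ 5 → {i | v i ∈ G}.ncard ≤ 4 + finrank ℝ G)
    (hD : 8 ≤ finrank ℝ E) (hN : Fintype.card ι = 2 * finrank ℝ E) (hb : Bdd v 4) :
    ∀ G : Submodule ℝ E, finrank ℝ G ≤ 2 → {i | v i ∈ G}.ncard ≤ 3 := by
  classical
  intro G hG
  by_contra hcon
  push Not at hcon
  obtain ⟨hc, ⟨h, hpos⟩, hnp⟩ := hv
  have hG2 : finrank ℝ G = 2 := by
    by_contra hne
    have := hnp G (by omega)
    omega
  have hfd := fullyDiv_of_four hG2 hnp hcon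
  have hc1 : Cosimple (G.mkQ ∘ v) := hc.comp (Submodule.mkQ_surjective G)
  have hb1 : Bdd (G.mkQ ∘ v) 2 := fun X Y hXY => by
    have := hfd.bdd hb hXY
    omega
  have hr1 := Submodule.finrank_quotient_add_finrank G
  obtain ⟨m, A, B, hF⟩ := exists_maxFrame hc1
  have hm : m ≤ 2 := by rw [← hF.rank]; exact hb1 _ _ hF.svec
  have hcomp := hF.compl
  have hL := ncard_L hF
  have hset : ∀ M : Submodule ℝ (E ⧸ G), {i | (G.mkQ ∘ v) i ∈ M} = {i | v i ∈ M.comap G.mkQ} :=
    fun M => rfl
  have hfL := hfc ((LL (G.mkQ ∘ v) A B).comap G.mkQ) (by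
    rw [finrank_comap_mkQ, hF.rank]; omega)
  rw [finrank_comap_mkQ, hF.rank, ← hset] at hfL
  have hm2 : m = 2 := by omega
  subst hm2
  have hA3 : A.ncard ≠ 2 := fun h1 => by
    have := hF.small_of_card h1
    omega
  have hB3 : B.ncard ≠ 2 := fun h1 => by
    have := hF.symm.small_of_card h1
    omega
  have hA2 := hF.le_card
  have hB2 := hF.symm.le_card
  have hq := quot_three hF (by omega) (by omega) (by omega)
  -- the elements of `L'` span
  let J : Set ι := {i | (G.mkQ ∘ v) i ∈ LL (G.mkQ ∘ v) A B}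
  have hJ : sp (G.mkQ ∘ v) J = LL (G.mkQ ∘ v) A B := by
    have hle : sp (G.mkQ ∘ v) J ≤ LL (G.mkQ ∘ v) A B := sp_le.2 fun i hi => hi
    refine Submodule.eq_of_le_of_finrank_le hle ?_
    by_contra hlt
    push Not at hlt
    rw [hF.rank] at hlt
    have h1 := hfc ((sp (G.mkQ ∘ v) J).comap G.mkQ) (by rw [finrank_comap_mkQ]; omega)
    rw [finrank_comap_mkQ, ← hset] at h1
    have h2 : J ⊆ {i | (G.mkQ ∘ v) i ∈ sp (G.mkQ ∘ v) J} := fun i hi => mem_sp hi
    have h3 := Set.ncard_le_ncard h2 (Set.toFinite _)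
    have h4 : J.ncard = {i | (G.mkQ ∘ v) i ∈ LL (G.mkQ ∘ v) A B}.ncard := rfl
    omega
  have h5 := bdd_span hb1 J
  rw [hJ] at h5
  exact hq h5

/-- the cosimple case. -/
theorem cosimple_four [Nonempty ι] (hv : Pts v)
    (hfc : ∀ G : Submodule ℝ E, finrank ℝ G ≤ 5 → {i | v i ∈ G}.ncard ≤ 4 + finrank ℝ G)
    (hD : 8 ≤ finrank ℝ E) (hN : Fintype.card ι = 2 * finrank ℝ E) : ¬ Bdd v 4 := by
  classical
  intro hb
  have hno4 := no_line hv hfc hD hN hb
  obtain ⟨hc, ⟨h, hpos⟩, hnp⟩ := hv
  have hno6 : ∀ G : Submodule ℝ E, finrank ℝ G ≤ 3 → {i | v i ∈ G}.ncard ≤ 5 := by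
    intro G hG
    by_contra hcon
    push Not at hcon
    have hG3 : finrank ℝ G = 3 := by
      by_contra hne
      have := hno4 G (by omega)
      omega
    have hfd := fullyDiv_of_six hG3 h hpos hnp hno4 hcon
    obtain ⟨L', μ, h1, h2, h3⟩ := hfd.exists_big hc hb
    have h4 := hfc L' (by omega)
    omega
  obtain ⟨m, A, B, hF⟩ := exists_maxFrame hc
  have hm : m ≤ 4 := by rw [← hF.rank]; exact hb _ _ hF.svec
  have h1 := ncard_L hF
  have h3 := hF.compl
  have h4 := hF.card
  have hα := hF.small_ne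
  have hβ := hF.symm.small_ne
  have hr := hF.rank
  rcases Nat.lt_or_ge m 3 with hm3 | hm3
  · have := hno4 _ (hr.le.trans (by omega))
    omega
  rcases Nat.lt_or_ge m 4 with hm4 | hm4
  · have h5 := hno6 _ (hr.le.trans (by omega))
    obtain ⟨K, hK, hKW⟩ := hF.two_exits h hpos (by omega)
    have h6 := hnp K (by omega)
    have h7 := compl_subset_le hF hKW
    omega
  have hm4' : m = 4 := by omega
  subst hm4'
  -- at least three small elements, for every frame
  have hσ : ∀ A B : Set ι, MaxFrame v 4 A B → 3 ≤ (small v A B).ncard + (small v B A).ncard := by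
    intro A B hF
    by_contra hcon
    push Not at hcon
    obtain ⟨K, hK, hKW⟩ := hF.two_exits h hpos (by omega)
    have h5 := hno4 K (by omega)
    have h6 := compl_subset_le hF hKW
    have h7 := hF.compl
    omega
  have hσ0 := hσ A B hF
  have h8 := hfc _ (hr.le.trans (by norm_num))
  rw [hr] at h8
  rcases Nat.lt_or_ge (finrank ℝ E) 9 with hr9 | hr9
  swap
  · obtain ⟨K, hK, hKW, hcase⟩ := hF.one_exit h hpos (by omega) (by norm_num)
    have h5 := hno6 K (by omega)
    rcases hcase with ⟨hKA, -⟩ | ⟨hKB, -⟩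
    · have h6 := compl_small_le hF hKW hKA
      omega
    · have h6 := compl_small_le hF.symm (fun w hw hw' => hKW w hw' hw) hKB
      rw [Set.union_comm] at h6
      omega
  have hr8 : finrank ℝ E = 8 := by omega
  -- `L` has exactly seven elements, for every frame
  have h7 : ∀ A B : Set ι, MaxFrame v 4 A B → {i | v i ∈ LL v A B}.ncard ≤ 7 := by
    intro A B hF
    by_contra hcon
    push Not at hcon
    have h5 := bdd_quot_of_eight ⟨h, hpos⟩ hb hnp hno4 hno6 hF.rank hcon
    have h6 := finrank_le_one (hc.comp (Submodule.mkQ_surjective _)) h5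
    have h9 := Submodule.finrank_quotient_add_finrank (LL v A B)
    rw [hF.rank] at h9
    omega
  have hne4 : ∀ A B : Set ι, MaxFrame v 4 A B → A.ncard ≠ 4 := by
    intro A B hF hA
    have h5 := hF.small_of_card hA
    have h6 := ncard_L hF
    have h9 := h7 A B hF
    have h10 := hF.compl
    omega
  have hne6 : ∀ A B : Set ι, MaxFrame v 4 A B → A.ncard ≠ 6 := by
    intro A B hF hA
    have h5 := hF.card
    have h6 := quot_four hF (by omega) (by omega)
    have h9 := ncard_L hF
    have h10 := hσ A B hF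
    have h11 := hF.compl
    have h7' : 7 ≤ {i | v i ∈ LL v A B}.ncard := by omega
    refine h6 (bdd_quot_of_full h hpos hb ?_ ?_)
    · have : 0 < {i | v i ∈ LL v A B}.ncard := by omega
      exact (Set.ncard_pos (Set.toFinite _)).1 this
    · intro i hi
      refine Submodule.eq_of_le_of_finrank_le (sp_le.2 fun l hl => hl.1) ?_
      by_contra hlt
      push Not at hlt
      rw [hF.rank] at hlt
      have h12 := hno6 (sp v {l | v l ∈ LL v A B ∧ l ≠ i}) (by omega)
      have h13 : {l | v l ∈ LL v A B} ⊆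
          insert i {l | v l ∈ sp v {l | v l ∈ LL v A B ∧ l ≠ i}} := by
        intro l hl
        by_cases hli : l = i
        · exact Or.inl hli
        · exact Or.inr (mem_sp ⟨hl, hli⟩)
      have h14 := Set.ncard_le_ncard h13 (Set.toFinite _)
      have h15 := Set.ncard_insert_le i {l | v l ∈ sp v {l | v l ∈ LL v A B ∧ l ≠ i}}
      omega
  -- the sizes are five and seven
  have hA8 : A.ncard ≤ 8 := by
    rw [← finrank_sp_eq hF.indA, ← hr8]; exact Submodule.finrank_le _
  have hB8 : B.ncard ≤ 8 := by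
    rw [← finrank_sp_eq hF.indB, ← hr8]; exact Submodule.finrank_le _
  have e1 := hne4 A B hF
  have e2 := hne4 B A hF.symm
  have e3 := hne6 A B hF
  have e4 := hne6 B A hF.symm
  have e5 := h7 A B hF
  obtain ⟨K, hK, hKW, hcase⟩ := hF.one_exit h hpos (by omega) (by norm_num)
  rcases hcase with ⟨-, t, ht, hF'⟩ | ⟨-, t, ht, hF'⟩
  · have e6 := hne4 _ _ hF'
    have e7 := hne6 _ _ hF'
    rw [Set.ncard_sdiff_singleton_of_mem ht] at e6 e7
    omega
  · have e6 := hne4 _ _ hF'.symm
    have e7 := hne6 _ _ hF'.symm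
    rw [Set.ncard_sdiff_singleton_of_mem ht] at e6 e7
    omega

end H30.FO
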