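import Pool.Agent.H30.FO.Four
import Pool.Agent.H30.DV.Assemble

/-! `k = 4`: reduction to the cosimple case, and points. -/

set_option linter.unusedSectionVars false

open Module Submodule H15 H30.DV Pool.Agent.H7.DV

namespace H30.FO

/-- induction on the rank; the base is `n(4, 6) = 14`. -/
theorem good_four : ∀ n : ℕ, ∀ (ι : Type) [Fintype ι] (E : Type) [AddCommGroup E] [Module ℝ E]
    [FiniteDimensional ℝ E] (v : ι → E), Good 4 v → finrank ℝ E = n + 7 →
    2 * (n + 7) ≤ Fintype.card ι → ¬ Bdd v 4 := by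
  intro n
  induction n with
  | zero =>
    intro ι _ E _ _ _ v hv hE hcard hb
    classical
    obtain ⟨J, -, hJ⟩ := Set.exists_subset_card_eq (s := (Set.univ : Set ι))
      (n := 14) (by rw [Set.ncard_univ, Nat.card_eq_fintype_card]; omega)
    have hmem : ∀ i ∈ J, v i ∈ (⊤ : Submodule ℝ E) := fun i _ => mem_top
    have hcJ : Fintype.card J = J.ncard := by
      rw [← Nat.card_eq_fintype_card]; rfl
    exact family_bound (k := 4) le_rfl (hv.sub hmem) (by rw [finrank_top]; omega) (by omega)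
      (bdd_sub hb hmem)
  | succ n IH =>
    intro ι _ E _ _ _ v hv hE hcard hb
    classical
    obtain ⟨J, -, hJ⟩ := Set.exists_subset_card_eq (s := (Set.univ : Set ι))
      (n := 2 * (n + 8)) (by rw [Set.ncard_univ, Nat.card_eq_fintype_card]; omega)
    have hmem : ∀ i ∈ J, v i ∈ (⊤ : Submodule ℝ E) := fun i _ => mem_top
    have hcJ : Fintype.card J = J.ncard := by
      rw [← Nat.card_eq_fintype_card]; rfl
    have hg' := hv.sub hmem
    have hb' := bdd_sub hb hmem
    have hT : finrank ℝ (⊤ : Submodule ℝ E) = n + 8 := by rw [finrank_top]; omega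
    have hne : Nonempty J := by rw [← Fintype.card_pos_iff]; omega
    by_cases hc : Cosimple (H15.sub v ⊤ J hmem)
    · exact cosimple_four ⟨hc, hg'.pos, hg'.np⟩ hg'.fc (by omega) (by omega) hb'
    · unfold Cosimple at hc
      push Not at hc
      obtain ⟨i, j, hij⟩ := hc
      have h1 := Submodule.finrank_lt (lt_top_iff_ne_top.2 hij).ne
      obtain ⟨G, hG1, -, hG2⟩ := exists_le_finrank_eq (sp (H15.sub v ⊤ J hmem) ({i, j}ᶜ)) ⊤ le_top
        (n + 7) (by omega) (by rw [finrank_top]; omega)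
      have hmem' : ∀ l ∈ ({i, j}ᶜ : Set J), H15.sub v ⊤ J hmem l ∈ G := fun l hl => hG1 (mem_sp hl)
      have h5 := Set.ncard_add_ncard_compl ({i, j} : Set J)
      rw [Nat.card_eq_fintype_card] at h5
      have h6 : ({i, j} : Set J).ncard ≤ 2 := by
        have := Set.ncard_insert_le i ({j} : Set J)
        rwa [Set.ncard_singleton] at this
      have h7 : Fintype.card ({i, j}ᶜ : Set J) = ({i, j}ᶜ : Set J).ncard := by
        rw [← Nat.card_eq_fintype_card]; rfl
      exact IH _ G (H15.sub (H15.sub v ⊤ J hmem) G ({i, j}ᶜ) hmem') (hg'.sub hmem') hG2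
        (by omega) (bdd_sub hb' hmem')

/-- points. -/
theorem divisible_gen {k d N : ℕ} (hkd : k ≤ d) (hN : 2 * k + 2 ≤ N)
    (H : ∀ (ι : Type) [Fintype ι] (E : Type) [AddCommGroup E] [Module ℝ E] [FiniteDimensional ℝ E]
      (v : ι → E), Good k v → finrank ℝ E = d + 1 → N ≤ Fintype.card ι → ¬ Bdd v k)
    (S : Finset (EuclideanSpace ℝ (Fin d))) (hS : FlatCondition k S)
    (hcard : N ≤ S.card) : Divisible k S := by
  classical
  have hd' : finrank ℝ (EuclideanSpace ℝ (Fin d) × ℝ) = d + 1 := by simp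
  let h : EuclideanSpace ℝ (Fin d) × ℝ →ₗ[ℝ] ℝ := LinearMap.snd ℝ _ ℝ
  let S0 : Finset (EuclideanSpace ℝ (Fin d) × ℝ) := S.map (hom _)
  have hone : ∀ x ∈ S0, h x = 1 := by
    intro x hx
    obtain ⟨y, -, rfl⟩ := Finset.mem_map.1 hx
    rfl
  have hmem : ∀ x ∈ S0, x ∈ (⊤ : Submodule ℝ (EuclideanSpace ℝ (Fin d) × ℝ)) :=
    fun _ _ => mem_top
  have hDt : finrank ℝ (⊤ : Submodule ℝ (EuclideanSpace ℝ (Fin d) × ℝ)) = d + 1 := by
    rw [finrank_top, hd']
  have hcard0 : N ≤ Fintype.card S0 := by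
    rw [Fintype.card_coe, Finset.card_map]; exact hcard
  have hgood : Good k (fam S0 ⊤ hmem) := by
    refine ⟨⟨h.comp (Submodule.subtype _), fun i => ?_⟩, ?_, ?_⟩
    · change 0 < h (i : EuclideanSpace ℝ (Fin d) × ℝ)
      rw [hone i i.2]; norm_num
    · exact np_of_one (h.comp (Submodule.subtype _)) (fun i => hone i i.2) (by
        intro i j' hij
        have h3 : (Submodule.subtype ⊤) (fam S0 ⊤ hmem i) =
          (Submodule.subtype ⊤) (fam S0 ⊤ hmem j') := by rw [hij]
        exact Subtype.ext h3)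
    · refine fc_of_flat' (by omega) (by omega) ?_
      intro G hG
      have h1 := flat_linear S hS (G.map (Submodule.subtype _)) (by
        rw [← (Submodule.equivMapOfInjective (Submodule.subtype _)
          Subtype.val_injective G).finrank_eq, hG])
        (S0.filter (· ∈ G.map (Submodule.subtype _))) (Finset.filter_subset _ _)
        (fun x hx => (Finset.mem_filter.1 hx).2)
      refine le_trans ?_ h1
      rw [← Set.ncard_coe_finset, ← Set.ncard_image_of_injective _
        (Subtype.val_injective (p := (· ∈ S0)))]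
      refine Set.ncard_le_ncard ?_ (Set.toFinite _)
      rintro _ ⟨i, hi, rfl⟩
      exact Finset.mem_coe.2 (Finset.mem_filter.2 ⟨i.2, ⟨_, hi, rfl⟩⟩)
  obtain ⟨T, hT, c, hc, hcT⟩ := fullDep_of_not_bdd (H _ _ _ hgood hDt hcard0)
  exact divisible_of_fullDep S T hT c hc hcT

/-- `n(4, d) ≤ 2 d + 2` for all `d ≥ 6`. -/
theorem divisible_four' {d : ℕ} (hd : 6 ≤ d) (S : Finset (EuclideanSpace ℝ (Fin d)))
    (hS : FlatCondition 4 S) (hcard : 2 * d + 2 ≤ S.card) : Divisible 4 S := by
  obtain ⟨n, rfl⟩ := Nat.exists_eq_add_of_le hd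
  exact divisible_gen (N := 2 * (6 + n) + 2) (by omega) (by omega)
    (fun ι _ E _ _ _ v hv hE hcard => good_four n ι E v hv (by omega) (by omega)) S hS hcard

end H30.FO
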